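import Pool.Agent.H371.LG2.P1

set_option autoImplicit false

namespace Pool.Agent.H371.LG.GN

open Pool.Agent.H371.GT

variable {m : ℕ}

namespace P4x

/-- the images of the loops -/
def fun4 (m : ℕ) : Fin (m + 4) → Multiplicative (Fin (m + 3) → ZMod 3) :=
  Fin.lastCases (motive := fun _ => Multiplicative (Fin (m + 3) → ZMod 3))
    (Multiplicative.ofAdd fun _ => -1) (fun i => Multiplicative.ofAdd (Pi.single i 1))

lemma fun4_castSucc (i : Fin (m + 3)) :
    fun4 m i.castSucc = Multiplicative.ofAdd (Pi.single i 1) := by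
  unfold fun4
  exact Fin.lastCases_castSucc _

lemma fun4_last : fun4 m (Fin.last (m + 3)) = Multiplicative.ofAdd fun _ => -1 := by
  unfold fun4
  exact Fin.lastCases_last

lemma prod_fun4 : (List.ofFn (fun4 m)).prod = 1 := by
  rw [List.prod_ofFn, Fin.prod_univ_castSucc]
  simp only [fun4_castSucc, fun4_last]
  rw [← ofAdd_sum, ← ofAdd_add, ← ofAdd_zero]
  apply congrArg
  have h : (∑ i : Fin (m + 3), (Pi.single i 1 : Fin (m + 3) → ZMod 3)) = 1 :=
    Finset.univ_sum_single (1 : Fin (m + 3) → ZMod 3)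
  rw [h]
  funext j
  show (1 : ZMod 3) + -1 = 0
  decide

end P4x

theorem exists_kap : ∃ κ : Pi 0 (m + 4) →* Multiplicative (Fin (m + 3) → ZMod 3), IsKap κ := by
  let tQ : TopologicalSpace (Multiplicative (Fin (m + 3) → ZMod 3)) := ⊥
  have dQ : DiscreteTopology (Multiplicative (Fin (m + 3) → ZMod 3)) := ⟨rfl⟩
  have fQ : Finite (Multiplicative (Fin (m + 3) → ZMod 3)) :=
    inferInstanceAs (Finite (Fin (m + 3) → ZMod 3))
  obtain ⟨p, hp⟩ := pi_lift (Q := Multiplicative (Fin (m + 3) → ZMod 3)) (P4x.fun4 m) P4x.prod_fun4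
  refine ⟨p.toMonoidHom, ?_, fun i => (hp i.castSucc).trans (P4x.fun4_castSucc i),
    (hp (Fin.last (m + 3))).trans P4x.fun4_last⟩
  have h1 : (p.toMonoidHom.ker : Set (Pi 0 (m + 4))) =
      (fun x => p x) ⁻¹' {(1 : Multiplicative (Fin (m + 3) → ZMod 3))} := by
    ext x
    rfl
  rw [h1]
  exact (isOpen_discrete _).preimage p.continuous_toFun

end Pool.Agent.H371.LG.GN
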