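import Pool.Agent.H371.LG2.D5
import Pool.Agent.H371.LG2.P4

set_option autoImplicit false

namespace Pool.Agent.H371.LG.GN

open Pool.Agent.H371.GT

variable {m : ℕ}

/-- the conjugating elements modulo an open normal subgroup form a closed set -/
theorem C1x.closed (p : Pi 0 (m + 4) →ₜ* F2) (s : MulAut (Pi 0 (m + 4))) (N : OpenNormalSubgroup F2) :
    IsClosed {h : F2 | ∀ u, (h * p u * h⁻¹)⁻¹ * p (s u) ∈ N.toSubgroup} := by
  have e : {h : F2 | ∀ u, (h * p u * h⁻¹)⁻¹ * p (s u) ∈ N.toSubgroup} =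
      ⋂ u, (fun h : F2 => (h * p u * h⁻¹)⁻¹ * p (s u)) ⁻¹' (N.toSubgroup : Set F2) := by
    ext h
    simp only [Set.mem_ofPred_eq, Set.mem_iInter, Set.mem_preimage, SetLike.mem_coe]
  rw [e]
  refine isClosed_iInter fun u => ?_
  have hc : IsClosed (N.toSubgroup : Set F2) := N.toOpenSubgroup.isClosed
  refine hc.preimage ?_
  fun_prop

theorem clos_inner (p : Pi 0 (m + 4) →ₜ* F2) (hp : IsProj p) (s : MulAut (Pi 0 (m + 4)))
    (hs : s ∈ Clos (Stab (std 0 (m + 4)))) (h : ∀ i, ∃ a, s (loop i) = a * loop i * a⁻¹) :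
    ∃ h, ∀ u, p (s u) = h * p u * h⁻¹ := by
  obtain ⟨κ, hκ⟩ := exists_kap
  -- `κ` does not see conjugation
  have hκs : ∀ i, κ (s (loop i)) = κ (loop i) := by
    intro i
    obtain ⟨a, ha⟩ := h i
    rw [ha, map_mul, map_mul, map_inv, mul_comm (κ a), mul_inv_cancel_right]
  -- the conjugating elements modulo `N`
  have key : ∀ N : OpenNormalSubgroup F2,
      {h : F2 | ∀ u, (h * p u * h⁻¹)⁻¹ * p (s u) ∈ N.toSubgroup}.Nonempty := by
    intro N
    have hopen : IsOpen ((N.toSubgroup.comap p.toMonoidHom ⊓ κ.ker : Subgroup (Pi 0 (m + 4))) :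
        Set (Pi 0 (m + 4))) := by
      have h1 : IsOpen ((N.toSubgroup.comap p.toMonoidHom : Subgroup (Pi 0 (m + 4))) : Set (Pi 0 (m + 4))) := by
        have h2 : IsOpen (N.toSubgroup : Set F2) := N.toOpenSubgroup.isOpen
        exact h2.preimage p.continuous_toFun
      exact h1.inter hκ.1
    have hnorm : (N.toSubgroup.comap p.toMonoidHom ⊓ κ.ker : Subgroup (Pi 0 (m + 4))).Normal := by
      have h1 : (N.toSubgroup.comap p.toMonoidHom).Normal := Subgroup.Normal.comap N.isNormal' _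
      have h2 : κ.ker.Normal := inferInstance
      exact Subgroup.normal_inf_normal _ _
    let M : OpenNormalSubgroup (Pi 0 (m + 4)) :=
      { toSubgroup := N.toSubgroup.comap p.toMonoidHom ⊓ κ.ker
        isOpen' := hopen
        isNormal' := hnorm }
    obtain ⟨d, hd, hdu⟩ := hs.2 M
    have hdu1 : ∀ u, p ((d u)⁻¹ * s u) ∈ N.toSubgroup := fun u => (hdu u).1
    have hdu2 : ∀ u, κ ((d u)⁻¹ * s u) = 1 := fun u => (hdu u).2
    have h3 : ∀ i, κ (d (loop i)) = κ (loop i) := by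
      intro i
      have h4 := hdu2 (loop i)
      rw [map_mul, map_inv, inv_mul_eq_one] at h4
      rw [h4, hκs]
    obtain ⟨h, hh⟩ := disc_inner p hp κ hκ d hd h3
    refine ⟨h, fun u => ?_⟩
    rw [← hh u, ← map_inv, ← map_mul]
    exact hdu1 u
  have hne : (⋂ N : OpenNormalSubgroup F2,
      {h : F2 | ∀ u, (h * p u * h⁻¹)⁻¹ * p (s u) ∈ N.toSubgroup}).Nonempty := by
    have : Nonempty (OpenNormalSubgroup F2) := ⟨{ toSubgroup := ⊤, isOpen' := isOpen_univ }⟩
    refine IsCompact.nonempty_iInter_of_directed_nonempty_isCompact_isClosed _ ?_ key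
      (fun N => (C1x.closed p s N).isCompact) (C1x.closed p s)
    intro N N'
    refine ⟨N ⊓ N', fun h hh u => (hh u).1, fun h hh u => (hh u).2⟩
  obtain ⟨h, hh⟩ := hne
  refine ⟨h, fun u => ?_⟩
  symm
  apply eq_of_forall_mk_eq
  intro N
  rw [QuotientGroup.eq]
  exact Set.mem_iInter.1 hh N u

end Pool.Agent.H371.LG.GN
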