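import Pool.Agent.H371.LG2.P1
import Pool.Agent.H371.LG.D1

set_option autoImplicit false

namespace Pool.Agent.H371.LG.GN

open Pool.Agent.H371.GT

variable {m : ℕ}

namespace D2x

/-- the generators of the discrete group -/
abbrev sg {n : ℕ} (j : Fin n) : Srf 0 n := PresentedGroup.of (Sum.inr j)

theorem relator_eq (n : ℕ) : relator 0 n =
    (List.ofFn fun j : Fin n => (FreeGroup.of (Sum.inr j) : FreeGroup (Gen 0 n))).prod := by
  unfold relator
  simp

theorem sg_prod (n : ℕ) : (List.ofFn fun j : Fin n => sg j).prod = 1 := by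
  have h : (PresentedGroup.mk ({relator 0 n} : Set (FreeGroup (Gen 0 n)))) (relator 0 n) = 1 :=
    PresentedGroup.one_of_mem rfl
  have h2 := congrArg (PresentedGroup.mk ({relator 0 n} : Set (FreeGroup (Gen 0 n))))
    (relator_eq n)
  rw [h, map_list_prod, List.map_ofFn] at h2
  exact h2.symm

theorem sg_last (n : ℕ) : (sg (Fin.last n) : Srf 0 (n + 1)) =
    ((List.ofFn fun j : Fin n => (sg j.castSucc : Srf 0 (n + 1))).prod)⁻¹ := by
  have h := sg_prod (n + 1)
  rw [List.ofFn_succ', List.concat_eq_append, List.prod_append, List.prod_singleton] at h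
  exact eq_inv_of_mul_eq_one_right h

/-- two homomorphisms which agree on all generators but the last are equal -/
theorem srf_ext {n : ℕ} {G : Type} [Group G] {f g : Srf 0 (n + 1) →* G}
    (h0 : ∀ j : Fin n, f (sg j.castSucc) = g (sg j.castSucc)) : f = g := by
  have h3 : f (sg (Fin.last n)) = g (sg (Fin.last n)) := by
    rw [sg_last, map_inv, map_inv, map_list_prod, map_list_prod, List.map_ofFn, List.map_ofFn]
    congr 2
    refine List.ofFn_inj.2 ?_
    funext j
    exact h0 j
  apply PresentedGroup.ext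
  intro x
  rcases x with (i | i) | j
  · exact i.elim0
  · exact i.elim0
  · refine Fin.lastCases ?_ (fun i => ?_) j
    · exact h3
    · exact h0 i

/-- values on the loops of the projection of the discrete groups -/
def vl (j : Fin (m + 4)) : FreeGroup (Fin 2) :=
  if j.val = 0 then FreeGroup.of 0 else if j.val = 1 then FreeGroup.of 1 else
    if j = Fin.last (m + 3) then (FreeGroup.of 0 * FreeGroup.of 1)⁻¹ else 1

theorem vl_0 : (vl (0 : Fin (m + 4))) = FreeGroup.of 0 := by
  unfold vl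
  have h : ((0 : Fin (m + 4)) : ℕ) = 0 := rfl
  rw [if_pos h]

theorem vl_1 : (vl (1 : Fin (m + 4))) = FreeGroup.of 1 := by
  unfold vl
  have h : ((1 : Fin (m + 4)) : ℕ) = 1 := rfl
  rw [if_neg (by rw [h]; norm_num), if_pos h]

theorem vl_last : (vl (Fin.last (m + 3))) = (FreeGroup.of 0 * FreeGroup.of 1)⁻¹ := by
  unfold vl
  rw [if_neg (by simp), if_neg (by simp), if_pos rfl]

theorem vl_mid (j : Fin (m + 4)) (h2 : 2 ≤ j.val) (hj : j ≠ Fin.last (m + 3)) : vl j = 1 := by
  unfold vl
  rw [if_neg (by omega), if_neg (by omega), if_neg hj]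

theorem vl_prod : (List.ofFn fun j : Fin (m + 4) => vl j).prod = 1 := by
  rw [List.ofFn_succ, List.prod_cons, List.ofFn_succ, List.prod_cons, List.ofFn_succ',
    List.concat_eq_append, List.prod_append, List.prod_singleton]
  have h1 : (List.ofFn fun i : Fin (m + 1) => vl (i.castSucc.succ.succ : Fin (m + 4))).prod = 1 := by
    apply List.prod_eq_one
    intro x hx
    obtain ⟨i, rfl⟩ := (List.mem_ofFn' _ _).1 hx
    apply vl_mid
    · simp
    · intro h
      have := congrArg Fin.val h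
      simp at this
      omega
  have h2 : (vl ((Fin.last (m + 1)).succ.succ : Fin (m + 4))) =
      (FreeGroup.of 0 * FreeGroup.of 1)⁻¹ := by
    rw [Fin.succ_last, Fin.succ_last]
    exact vl_last
  have h3 : (vl ((0 : Fin (m + 3)).succ : Fin (m + 4))) = FreeGroup.of 1 := vl_1
  rw [h1, h2, h3, vl_0, one_mul, mul_inv_rev, ← mul_assoc, mul_assoc (FreeGroup.of 0)]
  simp

/-- values on the generators of the projection of the discrete groups -/
def val : Gen 0 (m + 4) → FreeGroup (Fin 2)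
  | Sum.inl _ => 1
  | Sum.inr j => vl j

theorem val_rel : ∀ r ∈ ({relator 0 (m + 4)} : Set (FreeGroup (Gen 0 (m + 4)))),
    FreeGroup.lift val r = 1 := by
  intro r hr
  rw [Set.mem_singleton_iff] at hr
  rw [hr, relator_eq, map_list_prod, List.map_ofFn]
  have h : ((FreeGroup.lift (val (m := m))) ∘ fun j : Fin (m + 4) =>
      (FreeGroup.of (Sum.inr j) : FreeGroup (Gen 0 (m + 4)))) = fun j => vl j := by
    funext j
    change FreeGroup.lift (val (m := m)) (FreeGroup.of (Sum.inr j)) = vl j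
    rw [FreeGroup.lift_apply_of]
    rfl
  rw [h]
  exact vl_prod

/-- the projection of the discrete groups -/
def p0 : Srf 0 (m + 4) →* FreeGroup (Fin 2) := PresentedGroup.toGroup val_rel

theorem p0_sg (j : Fin (m + 4)) : p0 (sg j) = vl j := PresentedGroup.toGroup.of val_rel

/-- the section -/
def jj : FreeGroup (Fin 2) →* Srf 0 (m + 4) := FreeGroup.lift ![sg 0, sg 1]

theorem jj_0 : (jj (FreeGroup.of 0) : Srf 0 (m + 4)) = sg 0 := by
  unfold jj
  rw [FreeGroup.lift_apply_of]
  rfl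

theorem jj_1 : (jj (FreeGroup.of 1) : Srf 0 (m + 4)) = sg 1 := by
  unfold jj
  rw [FreeGroup.lift_apply_of]
  rfl

theorem p0_jj (u : FreeGroup (Fin 2)) : p0 (jj u : Srf 0 (m + 4)) = u := by
  have h : (p0 (m := m)).comp jj = MonoidHom.id _ := by
    apply FreeGroup.ext_hom
    intro i
    fin_cases i
    · change p0 (jj (FreeGroup.of 0) : Srf 0 (m + 4)) = FreeGroup.of 0
      rw [jj_0, p0_sg, vl_0]
    · change p0 (jj (FreeGroup.of 1) : Srf 0 (m + 4)) = FreeGroup.of 1
      rw [jj_1, p0_sg, vl_1]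
  exact DFunLike.congr_fun h u

theorem cases_lt (j : Fin (m + 3)) : j.castSucc = (0 : Fin (m + 4)) ∨
    j.castSucc = (1 : Fin (m + 4)) ∨
    (2 ≤ (j.castSucc : Fin (m + 4)).val ∧ (j.castSucc : Fin (m + 4)) ≠ Fin.last (m + 3)) := by
  rcases Nat.lt_or_ge (j.castSucc : Fin (m + 4)).val 1 with h | h
  · left
    apply Fin.ext
    have : ((0 : Fin (m + 4)) : ℕ) = 0 := rfl
    omega
  rcases Nat.lt_or_ge (j.castSucc : Fin (m + 4)).val 2 with h' | h'
  · right; left
    apply Fin.ext
    have : ((1 : Fin (m + 4)) : ℕ) = 1 := rfl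
    omega
  · right; right
    exact ⟨h', Fin.castSucc_ne_last j⟩

end D2x

open D2x

/-- the endomorphism of the discrete free group of rank two induced by an automorphism preserving the
standard discretification and the kernel of the projection -/
theorem disc_dbar (p : Pi 0 (m + 4) →ₜ* F2) (hp : IsProj p) (d : MulAut (Pi 0 (m + 4)))
    (hd : (std 0 (m + 4)).map d.toMonoidHom = std 0 (m + 4))
    (h2 : ∀ j : Fin (m + 4), 2 ≤ j.val → j ≠ Fin.last (m + 3) → p (d (loop j)) = 1) :
    ∃ e : FreeGroup (Fin 2) →* FreeGroup (Fin 2), Function.Surjective e ∧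
      eta (FreeGroup (Fin 2)) (e (FreeGroup.of 0)) = p (d (loop 0)) ∧
      eta (FreeGroup (Fin 2)) (e (FreeGroup.of 1)) = p (d (loop 1)) := by
  obtain ⟨hp0, hp1, hp2, _⟩ := hp
  -- the projection of the discrete group
  have hA : ∀ s : Srf 0 (m + 4), p (eta (Srf 0 (m + 4)) s) = eta (FreeGroup (Fin 2)) (p0 s) := by
    have h : p.toMonoidHom.comp (eta (Srf 0 (m + 4))) = (eta (FreeGroup (Fin 2))).comp p0 := by
      apply srf_ext
      intro j
      change p (loop j.castSucc) = eta (FreeGroup (Fin 2)) (p0 (sg j.castSucc))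
      rw [p0_sg]
      rcases cases_lt j with h | h | ⟨h, h'⟩
      · rw [h, hp0, vl_0]
        rfl
      · rw [h, hp1, vl_1]
        rfl
      · rw [hp2 _ h h', vl_mid _ h h', map_one]
    exact fun s => DFunLike.congr_fun h s
  -- images of the discrete group
  have hB : ∀ s : Srf 0 (m + 4), ∃ s' : Srf 0 (m + 4),
      eta (Srf 0 (m + 4)) s' = d (eta (Srf 0 (m + 4)) s) := by
    intro s
    have h : d (eta (Srf 0 (m + 4)) s) ∈ (std 0 (m + 4)).map d.toMonoidHom :=
      ⟨eta (Srf 0 (m + 4)) s, ⟨s, rfl⟩, rfl⟩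
    rw [hd] at h
    exact h
  have hB' : ∀ s : Srf 0 (m + 4), ∃ s' : Srf 0 (m + 4),
      d (eta (Srf 0 (m + 4)) s') = eta (Srf 0 (m + 4)) s := by
    intro s
    have h : eta (Srf 0 (m + 4)) s ∈ std 0 (m + 4) := ⟨s, rfl⟩
    rw [← hd] at h
    obtain ⟨_, ⟨s', rfl⟩, h1⟩ := h
    exact ⟨s', h1⟩
  obtain ⟨s0, hs0⟩ := hB (sg 0)
  obtain ⟨s1, hs1⟩ := hB (sg 1)
  have hc0 : eta (FreeGroup (Fin 2)) (p0 s0) = p (d (loop 0)) := by
    rw [← hA, hs0]
    rfl
  have hc1 : eta (FreeGroup (Fin 2)) (p0 s1) = p (d (loop 1)) := by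
    rw [← hA, hs1]
    rfl
  let e : FreeGroup (Fin 2) →* FreeGroup (Fin 2) := FreeGroup.lift ![p0 s0, p0 s1]
  have he0 : e (FreeGroup.of 0) = p0 s0 := by
    change FreeGroup.lift ![p0 s0, p0 s1] (FreeGroup.of 0) = p0 s0
    rw [FreeGroup.lift_apply_of]
    rfl
  have he1 : e (FreeGroup.of 1) = p0 s1 := by
    change FreeGroup.lift ![p0 s0, p0 s1] (FreeGroup.of 1) = p0 s1
    rw [FreeGroup.lift_apply_of]
    rfl
  have hC : ∀ s : Srf 0 (m + 4), p (d (eta (Srf 0 (m + 4)) s)) =
      eta (FreeGroup (Fin 2)) (e (p0 s)) := by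
    have h : p.toMonoidHom.comp (d.toMonoidHom.comp (eta (Srf 0 (m + 4)))) =
        (eta (FreeGroup (Fin 2))).comp (e.comp p0) := by
      apply srf_ext
      intro j
      change p (d (loop j.castSucc)) = eta (FreeGroup (Fin 2)) (e (p0 (sg j.castSucc)))
      rw [p0_sg]
      rcases cases_lt j with h | h | ⟨h, h'⟩
      · rw [h, vl_0, he0, hc0]
      · rw [h, vl_1, he1, hc1]
      · rw [h2 _ h h', vl_mid _ h h', map_one, map_one]
    exact fun s => DFunLike.congr_fun h s
  refine ⟨e, fun u => ?_, by rw [he0, hc0], by rw [he1, hc1]⟩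
  obtain ⟨s, hs⟩ := hB' (jj u)
  refine ⟨p0 s, ?_⟩
  apply eta_inj
  rw [← hC s, hs, hA, p0_jj]

end Pool.Agent.H371.LG.GN
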