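import Pool.Agent.H371.LG2.D2
import Pool.Agent.H371.LG2.D3
import Pool.Agent.H371.LG.D4
import Pool.Agent.H371.LG.N1

set_option autoImplicit false

namespace Pool.Agent.H371.LG.GN

open Pool.Agent.H371.GT

variable {m : ℕ}

theorem D5x.ppow_id (l : Zhat) : ppow (1 : F2) l = 1 := by
  symm
  rw [eq_ppow_iff]
  intro N
  rw [QuotientGroup.mk_one, one_pow]

theorem disc_inner (p : Pi 0 (m + 4) →ₜ* F2) (hp : IsProj p)
    (κ : Pi 0 (m + 4) →* Multiplicative (Fin (m + 3) → ZMod 3)) (hκ : IsKap κ)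
    (d : MulAut (Pi 0 (m + 4))) (hd : d ∈ Stab (std 0 (m + 4)))
    (h3 : ∀ i, κ (d (loop i)) = κ (loop i)) : ∃ h, ∀ u, p (d u) = h * p u * h⁻¹ := by
  obtain ⟨⟨hcont, l, τ, hlac⟩, hstd⟩ := hd
  obtain ⟨hτ, hl3⟩ := perm_triv κ hκ d l τ hlac h3
  obtain ⟨hp0, hp1, hp2, hp3⟩ := id hp
  have key : ∀ i, ∃ a : F2, p (d (loop i)) = a * ppow (p (loop i)) (l : Zhat) * a⁻¹ := by
    intro i
    obtain ⟨a, ha⟩ := hlac i
    refine ⟨p a, ?_⟩
    rw [ha, hτ i, map_mul, map_mul, map_inv, map_ppow]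
  obtain ⟨a0, h0⟩ := key 0
  obtain ⟨a1, h1⟩ := key 1
  have h2 : ∀ j : Fin (m + 4), 2 ≤ j.val → j ≠ Fin.last (m + 3) → p (d (loop j)) = 1 := by
    intro j hj hj2
    obtain ⟨a, ha⟩ := key j
    rw [ha, hp2 j hj hj2, D5x.ppow_id, mul_one, mul_inv_cancel]
  rw [hp0] at h0
  rw [hp1] at h1
  obtain ⟨e, he, e0, e1⟩ := disc_dbar p hp d hstd h2
  obtain ⟨w, hw⟩ := ia2 e he fun i => ab_triv e he l hl3 a0 a1 (e0.trans h0) (e1.trans h1) i
  set h : F2 := eta (FreeGroup (Fin 2)) w with hh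
  have c0 : p (d (loop 0)) = h * X * h⁻¹ := by
    rw [← e0, hw, map_mul, map_mul, map_inv]
    rfl
  have c1 : p (d (loop 1)) = h * Y * h⁻¹ := by
    rw [← e1, hw, map_mul, map_mul, map_inv]
    rfl
  let dc : Pi 0 (m + 4) →ₜ* Pi 0 (m + 4) := ⟨d.toMonoidHom, hcont⟩
  let ch : F2 →ₜ* F2 := ⟨(MulAut.conj h).toMonoidHom, by
    show Continuous fun u : F2 => h * u * h⁻¹
    exact (continuous_const.mul continuous_id).mul continuous_const⟩
  have hE : p.comp dc = ch.comp p := by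
    apply pi_ext
    intro j
    show p (d (loop j.castSucc)) = h * p (loop j.castSucc) * h⁻¹
    by_cases hj0 : j.castSucc = 0
    · rw [hj0, c0, hp0]
    by_cases hj1 : j.castSucc = 1
    · rw [hj1, c1, hp1]
    have hj2 : 2 ≤ (j.castSucc).val := by
      have k0 : (j.castSucc).val ≠ 0 := fun hc => hj0 (Fin.ext hc)
      have k1 : (j.castSucc).val ≠ 1 := fun hc => hj1 (Fin.ext (by
        rw [hc]
        simp))
      omega
    have hjl : j.castSucc ≠ Fin.last (m + 3) := Fin.castSucc_ne_last j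
    rw [h2 _ hj2 hjl, hp2 _ hj2 hjl, mul_one, mul_inv_cancel]
  refine ⟨h, fun u => ?_⟩
  exact DFunLike.congr_fun hE u

end Pool.Agent.H371.LG.GN
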