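import Pool.Agent.H371.LG.Defs

set_option autoImplicit false

namespace Pool.Agent.H371.LG.GN

open Pool.Agent.H371.GT

variable {m : ℕ}

/-- the map from the profinite loop group of type `(0, m + 4)` to the free profinite group on `X, Y`
which kills the loops except the first two and the last -/
def IsProj (p : Pi 0 (m + 4) →ₜ* F2) : Prop :=
  p (loop 0) = X ∧ p (loop 1) = Y ∧
    (∀ j : Fin (m + 4), 2 ≤ j.val → j ≠ Fin.last (m + 3) → p (loop j) = 1) ∧
    p (loop (Fin.last (m + 3))) = Z

/-- reduction modulo `3` of the abelianization in type `(0, m + 4)` -/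
def IsKap (κ : Pi 0 (m + 4) →* Multiplicative (Fin (m + 3) → ZMod 3)) : Prop :=
  IsOpen (κ.ker : Set (Pi 0 (m + 4))) ∧
    (∀ i : Fin (m + 3), κ (loop i.castSucc) = Multiplicative.ofAdd (Pi.single i 1)) ∧
    κ (loop (Fin.last (m + 3))) = Multiplicative.ofAdd fun _ => -1

end Pool.Agent.H371.LG.GN
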