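import Pool.Agent.H371.LG.E3

set_option autoImplicit false

namespace Pool.Agent.H371.LG.GN

open Pool.Agent.H371.GT

namespace E3x

/-- an element which is killed by all the homomorphisms with open kernel to finite cyclic
groups -/
def Kil (g : F2) : Prop :=
  ∀ (e : ℕ) [NeZero e] (κ : F2 →* Multiplicative (ZMod e)), IsOpen (κ.ker : Set F2) → κ g = 1

theorem kil_derived {f : F2} (hf : f ∈ derived) : Kil f := by
  intro e _ κ ko
  exact Z1x.map_derived κ ko hf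

theorem kil_mul {g h : F2} (hg : Kil g) (hh : Kil h) : Kil (g * h) := by
  intro e _ κ ko
  rw [map_mul, hg e κ ko, hh e κ ko, one_mul]

theorem kil_map {g : F2} (hg : Kil g) (φ : F2 →ₜ* F2) : Kil (φ g) := by
  intro e _ κ ko
  have k3 : IsOpen ((κ.comp φ.toMonoidHom).ker : Set F2) := ko.preimage φ.continuous_toFun
  exact hg e (κ.comp φ.toMonoidHom) k3

/-- the iterates of an endomorphism which fixes `X` and conjugates `Y` -/
theorem iter (ψ : F2 →ₜ* F2) (h : F2) (hk : Kil h) (hX : ψ X = X) (hY : ψ Y = h⁻¹ * Y * h)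
    (k : ℕ) : (⇑ψ)^[k] X = X ∧ ∃ g, Kil g ∧ (⇑ψ)^[k] Y = g⁻¹ * Y * g := by
  induction k with
  | zero =>
    refine ⟨rfl, 1, ?_, ?_⟩
    · intro e _ κ ko
      exact map_one κ
    · rw [Function.iterate_zero_apply, inv_one, one_mul, mul_one]
  | succ k ih =>
    obtain ⟨h1, g, hg, h2⟩ := ih
    refine ⟨?_, h * ψ g, kil_mul hk (kil_map hg ψ), ?_⟩
    · rw [Function.iterate_succ_apply', h1, hX]
    · rw [Function.iterate_succ_apply', h2, map_mul, map_mul, map_inv, hY, mul_inv_rev]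
      simp only [mul_assoc]

end E3x

theorem pow_not_inner (l : Zhatˣ) (h1 : (l : Zhat) * l = 1) (h2 : (l : Zhat) ≠ 1)
    (h4 : res (l : Zhat) ⟨2 ^ 2, pow_pos two_pos 2⟩ = 1) (f : F2) (hf : f ∈ derived)
    (φ : F2 →ₜ* F2) (hφ : IsPhi (l : Zhat) f φ) (hZ : ∃ g, φ Z = g⁻¹ * ppow Z (l : Zhat) * g)
    (k : ℕ) (hk : 0 < k) : ¬ ∃ w, ∀ u, φ^[2 * k] u = w * u * w⁻¹ := by
  rintro ⟨w, hw⟩
  have hX : (φ.comp φ) X = X := by
    show φ (φ X) = X
    rw [hφ.1, map_ppow, hφ.1, ← GT.ppow_mul, h1, GT.ppow_one]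
  have hY : (φ.comp φ) Y = (f * φ f)⁻¹ * Y * (f * φ f) := by
    show φ (φ Y) = _
    rw [hφ.2, map_mul, map_mul, map_inv, map_ppow, hφ.2, F11x.conj_ppow, ← GT.ppow_mul, h1, GT.ppow_one,
      mul_inv_rev]
    simp only [mul_assoc]
  have hkil : E3x.Kil (f * φ f) :=
    E3x.kil_mul (E3x.kil_derived hf) (E3x.kil_map (E3x.kil_derived hf) φ)
  obtain ⟨hX', g, hg, hY'⟩ := E3x.iter (φ.comp φ) (f * φ f) hkil hX hY k
  have hit : (⇑(φ.comp φ))^[k] = (⇑φ)^[2 * k] := by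
    rw [Function.iterate_mul]
    rfl
  rw [hit] at hX' hY'
  have hwX : w * X = X * w := by
    have h5 := hw X
    rw [hX'] at h5
    exact (mul_inv_eq_iff_eq_mul.1 h5.symm)
  have hwY : (g * w) * Y = Y * (g * w) := by
    have h5 := hw Y
    rw [hY'] at h5
    have h6 : g * (g⁻¹ * Y * g) * w = g * (w * Y * w⁻¹) * w := by
      rw [h5]
    have h7 : g * (g⁻¹ * Y * g) * w = Y * (g * w) := by group
    have h8 : g * (w * Y * w⁻¹) * w = (g * w) * Y := by group
    rw [← h7, h6, h8]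
  have hw1 : w = 1 := by
    apply Pool.Agent.H371.LG.E3x.eq_one hwX
    intro e _ κ ko kY
    obtain ⟨n, hn⟩ := Z1x.exists_pow hwY κ.ker inferInstance ko
    have k1 : κ g = 1 := hg e κ ko
    rw [MonoidHom.mem_ker, map_mul, map_mul, map_inv, map_pow, k1, kY, one_pow,
      inv_one, one_mul, one_mul] at hn
    exact hn
  have h5 : ∀ a, (⇑φ)^[2 * k] a = a := by
    intro a
    have h6 := hw a
    rw [hw1, one_mul, inv_one, mul_one] at h6
    exact h6
  rcases general (l : Zhat) φ ⟨hφ.1, ⟨f, hφ.2⟩, hZ⟩ (2 * k) (by omega) h5 with h6 | ⟨-, -, h6⟩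
  · apply h2
    apply F11x.eq_one_of_ppow
    rw [← hφ.1]
    exact h6 X
  · have h7 := h6 2
    rw [h4] at h7
    exact absurd h7 (by decide)

end Pool.Agent.H371.LG.GN
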