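import Pool.Agent.H371.LG2.E3
import Pool.Agent.H371.LG.E4

set_option autoImplicit false

namespace Pool.Agent.H371.LG.GN

open Pool.Agent.H371.GT

namespace E4x

theorem pow_cont {σ : MulAut F2} (h : Continuous σ) (n : ℕ) : Continuous (σ ^ n : MulAut F2) := by
  induction n with
  | zero =>
    have e : (⇑(σ ^ 0 : MulAut F2) : F2 → F2) = fun u => u := by
      funext u
      rw [pow_zero]
      rfl
    rw [e]
    exact continuous_id
  | succ n ih =>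
    have e : (⇑(σ ^ (n + 1) : MulAut F2) : F2 → F2) = fun u => (σ ^ n : MulAut F2) (σ u) := by
      funext u
      rw [pow_succ, MulAut.mul_apply]
    rw [e]
    exact ih.comp h

theorem pow_conj {σ : MulAut F2} {x : F2} (h : ∃ a, σ x = a * x * a⁻¹) (n : ℕ) :
    ∃ a, (σ ^ n : MulAut F2) x = a * x * a⁻¹ := by
  obtain ⟨a, ha⟩ := h
  induction n with
  | zero =>
    refine ⟨1, ?_⟩
    rw [pow_zero, MulAut.one_apply, inv_one, mul_one, one_mul]
  | succ n ih =>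
    obtain ⟨b, hb⟩ := ih
    refine ⟨(σ ^ n : MulAut F2) a * b, ?_⟩
    rw [pow_succ, MulAut.mul_apply, ha, map_mul, map_mul, map_inv, hb]
    group

theorem pow_fix {σ : MulAut F2} {x : F2} (h : σ x = x) (n : ℕ) : (σ ^ n : MulAut F2) x = x := by
  induction n with
  | zero => rw [pow_zero, MulAut.one_apply]
  | succ n ih => rw [pow_succ, MulAut.mul_apply, h, ih]

theorem pow_iter {σ : MulAut F2} {φ : F2 →ₜ* F2} {k : F2} (h : ∀ u, σ u = k * φ (φ u) * k⁻¹)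
    (n : ℕ) : ∃ c : F2, ∀ u, (σ ^ n : MulAut F2) u = c * φ^[2 * n] u * c⁻¹ := by
  induction n with
  | zero =>
    refine ⟨1, fun u => ?_⟩
    rw [pow_zero, MulAut.one_apply, inv_one, mul_one, one_mul, mul_zero]
    rfl
  | succ n ih =>
    obtain ⟨c, hc⟩ := ih
    refine ⟨k * φ (φ c), fun u => ?_⟩
    have e : 2 * (n + 1) = 2 * n + 1 + 1 := by ring
    rw [pow_succ', MulAut.mul_apply, hc, h, e, Function.iterate_succ_apply',
      Function.iterate_succ_apply']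
    rw [map_mul, map_mul, map_mul, map_mul, map_inv, map_inv]
    group

end E4x

theorem exists_exotic_pow : ∃ σ : MulAut F2, ∀ k : ℕ, 0 < k → Exotic (σ ^ k) := by
  obtain ⟨l, h1, h2, h4⟩ := exists_lam
  obtain ⟨f, hf, φ, hφ, hZ⟩ := exists_phi l
  have hni := pow_not_inner l h1 h2 h4 f hf φ hφ hZ
  obtain ⟨g, hg⟩ := hZ
  have hH : Hex l φ := ⟨hφ.1, ⟨f, hφ.2⟩, ⟨g, hg⟩⟩
  have hs := surj_of_hex l φ hH
  have hi := inj_of_surj φ hs
  obtain ⟨t, ht⟩ : ∃ t : MulAut F2, ∀ u, t u = φ u :=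
    ⟨MulEquiv.ofBijective φ.toMonoidHom ⟨hi, hs⟩, fun _ => rfl⟩
  obtain ⟨k, hk⟩ : ∃ k : F2, k = g * φ g := ⟨_, rfl⟩
  have eX : φ (φ X) = X := by
    rw [hφ.1, map_ppow, hφ.1, ← Pool.Agent.H371.GT.ppow_mul, h1, Pool.Agent.H371.GT.ppow_one]
  have eY : φ (φ Y) = (f * φ f)⁻¹ * Y * (f * φ f) := Pool.Agent.H371.LG.E4x.sq_conj h1 φ hφ.2
  have eZ : φ (φ Z) = k⁻¹ * Z * k := by
    rw [hk]
    exact Pool.Agent.H371.LG.E4x.sq_conj h1 φ hg
  have eXY : φ (φ (X * Y)) = k⁻¹ * (X * Y) * k := by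
    have e : X * Y = Z⁻¹ := by
      unfold Z
      rw [inv_inv]
    rw [e, map_inv, map_inv, eZ]
    group
  obtain ⟨σ, hσ⟩ : ∃ σ : MulAut F2, ∀ u, σ u = k * φ (φ u) * k⁻¹ := by
    refine ⟨MulAut.conj k * t * t, fun u => ?_⟩
    rw [MulAut.mul_apply, MulAut.mul_apply, MulAut.conj_apply, ht, ht]
  have hc1 : Continuous σ := by
    have hc : Continuous fun u : F2 => k * φ (φ u) * k⁻¹ :=
      ((continuous_const_mul k).comp
        (φ.continuous_toFun.comp φ.continuous_toFun)).mul_const _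
    have he : (⇑σ : F2 → F2) = fun u => k * φ (φ u) * k⁻¹ := funext hσ
    rw [he]
    exact hc
  have hc2 : ∃ a, σ X = a * X * a⁻¹ := ⟨k, by rw [hσ, eX]⟩
  have hc3 : ∃ b, σ Y = b * Y * b⁻¹ := ⟨k * (f * φ f)⁻¹, by
    rw [hσ, eY]
    group⟩
  have hc4 : σ (X * Y) = X * Y := by
    rw [hσ, eXY]
    group
  refine ⟨σ, fun n hn => ⟨E4x.pow_cont hc1 n, E4x.pow_conj hc2 n, E4x.pow_conj hc3 n,
    E4x.pow_fix hc4 n, ?_⟩⟩
  rintro ⟨w, hw⟩
  obtain ⟨c, hc⟩ := E4x.pow_iter hσ n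
  refine hni n hn ⟨c⁻¹ * w, fun u => ?_⟩
  have h := hw u
  rw [hc] at h
  calc φ^[2 * n] u = c⁻¹ * (c * φ^[2 * n] u * c⁻¹) * c := by group
    _ = c⁻¹ * (w * u * w⁻¹) * c := by rw [h]
    _ = c⁻¹ * w * u * (c⁻¹ * w)⁻¹ := by group

end Pool.Agent.H371.LG.GN
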