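import Pool.Agent.H371.LG2.P1
import Pool.Agent.H371.GT.G1

set_option autoImplicit false

namespace Pool.Agent.H371.LG.GN

open Pool.Agent.H371.GT

variable {m : ℕ}

namespace P2x

theorem exists_iota : ∃ ι : F2 →ₜ* Pi 0 (m + 4), ι X = loop 0 ∧ ι Y = loop 1 := by
  obtain ⟨φ, hφ⟩ := exists_lift (Γ := FreeGroup (Fin 2)) (Q := Pi 0 (m + 4))
    (FreeGroup.lift ![(loop 0 : Pi 0 (m + 4)), loop 1])
  refine ⟨φ, ?_, ?_⟩
  · rw [← eta_zero, hφ, FreeGroup.lift_apply_of]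
    rfl
  · rw [← eta_one, hφ, FreeGroup.lift_apply_of]
    rfl

variable {ι : F2 →ₜ* Pi 0 (m + 4)}

theorem exists_Phi (hX : ι X = loop 0) (hY : ι Y = loop 1) (s : F2 →ₜ* F2)
    (hs : s (X * Y) = X * Y) : ∃ Φ : Pi 0 (m + 4) →ₜ* Pi 0 (m + 4), Φ (loop 0) = ι (s X) ∧
      Φ (loop 1) = ι (s Y) ∧ ∀ j : Fin (m + 4), 2 ≤ j.val → Φ (loop j) = loop j := by
  obtain ⟨Φ, h⟩ := pi_lift (n := m + 4) (fun j : Fin (m + 4) => if j.val = 0 then ι (s X) else
      if j.val = 1 then ι (s Y) else (loop j : Pi 0 (m + 4))) (by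
    have hp := loop_prod (m + 4)
    rw [List.ofFn_succ, List.ofFn_succ, List.prod_cons, List.prod_cons, ← mul_assoc] at hp ⊢
    have h1 : (fun i : Fin (m + 2) => if (i.succ.succ : Fin (m + 4)).val = 0 then ι (s X) else
        if (i.succ.succ : Fin (m + 4)).val = 1 then ι (s Y) else
          (loop i.succ.succ : Pi 0 (m + 4))) =
        fun i : Fin (m + 2) => (loop i.succ.succ : Pi 0 (m + 4)) := by
      funext i
      rw [if_neg (by simp), if_neg (by simp)]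
    have h2 : (if ((0 : Fin (m + 4)) : Fin (m + 4)).val = 0 then ι (s X) else
        if ((0 : Fin (m + 4)) : Fin (m + 4)).val = 1 then ι (s Y) else
          (loop 0 : Pi 0 (m + 4))) = ι (s X) := if_pos rfl
    have h3 : (if ((0 : Fin (m + 3)).succ : Fin (m + 4)).val = 0 then ι (s X) else
        if ((0 : Fin (m + 3)).succ : Fin (m + 4)).val = 1 then ι (s Y) else
          (loop (0 : Fin (m + 3)).succ : Pi 0 (m + 4))) = ι (s Y) := by
      rw [if_neg (by simp), if_pos (by simp)]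
    rw [h1, h2, h3, ← map_mul ι, ← map_mul s, hs, map_mul ι, hX, hY]
    exact hp)
  refine ⟨Φ, ?_, ?_, ?_⟩
  · rw [h]
    exact if_pos rfl
  · rw [h, if_neg (by simp), if_pos (by simp)]
  · intro j hj
    rw [h, if_neg (by omega), if_neg (by omega)]

theorem Phi_iota {s : F2 →ₜ* F2} {Φ : Pi 0 (m + 4) →ₜ* Pi 0 (m + 4)} (hX : ι X = loop 0)
    (hY : ι Y = loop 1)
    (h0 : Φ (loop 0) = ι (s X)) (h1 : Φ (loop 1) = ι (s Y)) (u : F2) : Φ (ι u) = ι (s u) := by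
  have h : Φ.comp ι = ι.comp s := by
    apply hom_ext_XY
    · show Φ (ι X) = ι (s X)
      rw [hX, h0]
    · show Φ (ι Y) = ι (s Y)
      rw [hY, h1]
  exact DFunLike.congr_fun h u

theorem cases_loop {P : Fin (m + 4) → Prop} (h0 : P 0) (h1 : P 1)
    (h2 : ∀ j : Fin (m + 4), 2 ≤ j.val → P j) (j : Fin (m + 4)) : P j := by
  rcases Nat.lt_or_ge j.val 2 with h | h
  · rcases (by omega : j.val = 0 ∨ j.val = 1) with h | h
    · have e : j = 0 := Fin.ext h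
      rw [e]
      exact h0
    · have e : j = 1 := Fin.ext (by rw [h]; simp)
      rw [e]
      exact h1
  · exact h2 j h

theorem Phi_comp {s t : F2 →ₜ* F2} {Φ Ψ : Pi 0 (m + 4) →ₜ* Pi 0 (m + 4)} (hX : ι X = loop 0)
    (hY : ι Y = loop 1) (hst : ∀ u, s (t u) = u)
    (h0 : Φ (loop 0) = ι (s X)) (h1 : Φ (loop 1) = ι (s Y))
    (h2 : ∀ j : Fin (m + 4), 2 ≤ j.val → Φ (loop j) = loop j)
    (k0 : Ψ (loop 0) = ι (t X)) (k1 : Ψ (loop 1) = ι (t Y))
    (k2 : ∀ j : Fin (m + 4), 2 ≤ j.val → Ψ (loop j) = loop j)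
    (u : Pi 0 (m + 4)) : Φ (Ψ u) = u := by
  have hall : ∀ j : Fin (m + 4), Φ (Ψ (loop j)) = loop j := by
    intro j
    refine cases_loop (P := fun j => Φ (Ψ (loop j)) = loop j) ?_ ?_ ?_ j
    · show Φ (Ψ (loop 0)) = loop 0
      rw [k0, Phi_iota hX hY h0 h1, hst, hX]
    · show Φ (Ψ (loop 1)) = loop 1
      rw [k1, Phi_iota hX hY h0 h1, hst, hY]
    · intro j hj
      show Φ (Ψ (loop j)) = loop j
      rw [k2 j hj, h2 j hj]
  have h : Φ.comp Ψ = ContinuousMonoidHom.id (Pi 0 (m + 4)) := by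
    apply pi_ext (n := m + 3)
    intro j
    exact hall j.castSucc
  exact DFunLike.congr_fun h u

end P2x

open P2x in
theorem exists_ext (σ : MulAut F2) (hσ : Exotic σ) (p : Pi 0 (m + 4) →ₜ* F2) (hp : IsProj p) :
    ∃ φ : MulAut (Pi 0 (m + 4)), Continuous φ ∧ (∃ a, φ (loop 0) = a * loop 0 * a⁻¹) ∧
      (∃ b, φ (loop 1) = b * loop 1 * b⁻¹) ∧
      (∀ j : Fin (m + 4), 2 ≤ j.val → φ (loop j) = loop j) ∧ ∀ u, p (φ u) = σ (p u) := by
  obtain ⟨hc, ⟨a, ha⟩, ⟨b, hb⟩, hXY, -⟩ := hσ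
  obtain ⟨p0, p1, p2, p3⟩ := hp
  obtain ⟨ι, hX, hY⟩ := exists_iota (m := m)
  -- `σ` and its inverse as continuous homomorphisms
  have hc' : Continuous (σ.symm : F2 → F2) :=
    Continuous.continuous_symm_of_equiv_compact_to_t2 (f := σ.toEquiv) hc
  obtain ⟨S, hS⟩ : ∃ S : F2 →ₜ* F2, ∀ u, S u = σ u := ⟨⟨σ.toMonoidHom, hc⟩, fun _ => rfl⟩
  obtain ⟨T, hT⟩ : ∃ T : F2 →ₜ* F2, ∀ u, T u = σ.symm u :=
    ⟨⟨σ.symm.toMonoidHom, hc'⟩, fun _ => rfl⟩
  have hST : ∀ u, S (T u) = u := fun u => by rw [hS, hT, MulEquiv.apply_symm_apply]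
  have hTS : ∀ u, T (S u) = u := fun u => by rw [hS, hT, MulEquiv.symm_apply_apply]
  have hS2 : S (X * Y) = X * Y := by rw [hS, hXY]
  have hT2 : T (X * Y) = X * Y := by
    rw [hT]
    conv_lhs => rw [← hXY]
    exact MulEquiv.symm_apply_apply σ _
  obtain ⟨Φ, h0, h1, h2⟩ := exists_Phi hX hY S hS2
  obtain ⟨Ψ, k0, k1, k2⟩ := exists_Phi hX hY T hT2
  have hΦΨ := Phi_comp hX hY hST h0 h1 h2 k0 k1 k2
  have hΨΦ := Phi_comp hX hY hTS k0 k1 k2 h0 h1 h2
  -- `p` is a left inverse of `ι`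
  have hpi : ∀ u, p (ι u) = u := by
    have h : p.comp ι = ContinuousMonoidHom.id F2 := by
      apply hom_ext_XY
      · show p (ι X) = X
        rw [hX, p0]
      · show p (ι Y) = Y
        rw [hY, p1]
    exact fun u => DFunLike.congr_fun h u
  have hall : ∀ j : Fin (m + 4), j ≠ Fin.last (m + 3) → p (Φ (loop j)) = S (p (loop j)) := by
    intro j
    refine cases_loop (P := fun j => j ≠ Fin.last (m + 3) → p (Φ (loop j)) = S (p (loop j)))
      ?_ ?_ ?_ j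
    · intro _
      show p (Φ (loop 0)) = S (p (loop 0))
      rw [h0, hpi, p0]
    · intro _
      show p (Φ (loop 1)) = S (p (loop 1))
      rw [h1, hpi, p1]
    · intro j hj hl
      show p (Φ (loop j)) = S (p (loop j))
      rw [h2 j hj, p2 j hj hl, map_one]
  have hpΦ : ∀ u, p (Φ u) = S (p u) := by
    have h : p.comp Φ = S.comp p := by
      apply pi_ext (n := m + 3)
      intro j
      exact hall j.castSucc (Fin.castSucc_lt_last j).ne
    exact fun u => DFunLike.congr_fun h u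
  let φ : MulAut (Pi 0 (m + 4)) :=
    { toFun := Φ
      invFun := Ψ
      left_inv := hΨΦ
      right_inv := hΦΨ
      map_mul' := map_mul Φ }
  refine ⟨φ, Φ.continuous_toFun, ⟨ι a, ?_⟩, ⟨ι b, ?_⟩, h2, fun u => ?_⟩
  · show Φ (loop 0) = ι a * loop 0 * (ι a)⁻¹
    rw [h0, hS, ha, map_mul, map_mul, map_inv, hX]
  · show Φ (loop 1) = ι b * loop 1 * (ι b)⁻¹
    rw [h1, hS, hb, map_mul, map_mul, map_inv, hY]
  · show p (Φ u) = σ (p u)
    rw [hpΦ, hS]

end Pool.Agent.H371.LG.GN
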