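import Pool.Agent.H371.LG2.P1

set_option autoImplicit false

namespace Pool.Agent.H371.LG.GN

open Pool.Agent.H371.GT

variable {m : ℕ}

namespace P3x

theorem loop_mem {n : ℕ} (j : Fin n) : (loop j : Pi 0 n) ∈ std 0 n := ⟨_, rfl⟩

theorem eta_mem {n : ℕ} (v : Pi 0 n →* Pi 0 n) (h : ∀ j : Fin n, v (loop j) ∈ std 0 n)
    (g : Srf 0 n) : v (eta (Srf 0 n) g) ∈ std 0 n := by
  have h1 : Subgroup.closure (Set.range (PresentedGroup.of (rels := {relator 0 n}))) ≤
      (std 0 n).comap (v.comp (eta (Srf 0 n))) := by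
    rw [Subgroup.closure_le]
    rintro _ ⟨i, rfl⟩
    rcases i with (i | i) | j
    · exact i.elim0
    · exact i.elim0
    · exact h j
  rw [PresentedGroup.closure_range_of] at h1
  exact h1 (Subgroup.mem_top g)

theorem map_mem {n : ℕ} (v : Pi 0 n →* Pi 0 n) (h : ∀ j : Fin n, v (loop j) ∈ std 0 n)
    (x : Pi 0 n) (hx : x ∈ std 0 n) : v x ∈ std 0 n := by
  obtain ⟨g, rfl⟩ := hx
  exact eta_mem v h g

theorem prod_rot {G : Type} [Group G] {n : ℕ} (f : Fin (n + 1) → G) :
    (List.ofFn fun j : Fin (n + 1) => f (j + 1)).prod = 1 ↔ (List.ofFn f).prod = 1 := by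
  have h1 : (List.ofFn f).prod = f 0 * (List.ofFn fun i : Fin n => f i.succ).prod := by
    rw [List.ofFn_succ, List.prod_cons]
  have h2 : (List.ofFn fun j : Fin (n + 1) => f (j + 1)).prod =
      (List.ofFn fun i : Fin n => f i.succ).prod * f 0 := by
    rw [List.ofFn_succ', List.concat_eq_append, List.prod_append, List.prod_singleton,
      Fin.last_add_one]
    congr 3
    funext i
    rw [Fin.coeSucc_eq_succ]
  rw [h1, h2, mul_eq_one_iff_eq_inv, mul_eq_one_iff_inv_eq, eq_comm]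

end P3x

open P3x in
theorem exists_rot : ∃ v : MulAut (Pi 0 (m + 4)), Continuous v ∧
    (∀ j : Fin (m + 4), v (loop j) = loop (j + 1)) ∧
    (std 0 (m + 4)).map v.toMonoidHom = std 0 (m + 4) := by
  have h1 : (List.ofFn fun j : Fin (m + 4) => (loop (j + 1) : Pi 0 (m + 4))).prod = 1 :=
    (prod_rot (n := m + 3) fun j => (loop j : Pi 0 (m + 4))).2 (loop_prod (m + 4))
  have h2 : (List.ofFn fun j : Fin (m + 4) => (loop (j - 1) : Pi 0 (m + 4))).prod = 1 := by
    rw [← prod_rot (n := m + 3) fun j => (loop (j - 1) : Pi 0 (m + 4))]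
    have h3 : (fun j : Fin (m + 3 + 1) => (loop (j + 1 - 1) : Pi 0 (m + 4))) =
        fun j => (loop j : Pi 0 (m + 4)) := by
      funext j
      rw [add_sub_cancel_right]
    rw [h3]
    exact loop_prod (m + 4)
  obtain ⟨p, hp⟩ := pi_lift (Q := Pi 0 (m + 4)) _ h1
  obtain ⟨q, hq⟩ := pi_lift (Q := Pi 0 (m + 4)) _ h2
  have hpq : p.comp q = ContinuousMonoidHom.id (Pi 0 (m + 4)) := by
    refine pi_ext (n := m + 3) _ _ fun j => ?_
    show p (q (loop j.castSucc)) = loop j.castSucc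
    rw [hq, hp, sub_add_cancel]
  have hqp : q.comp p = ContinuousMonoidHom.id (Pi 0 (m + 4)) := by
    refine pi_ext (n := m + 3) _ _ fun j => ?_
    show q (p (loop j.castSucc)) = loop j.castSucc
    rw [hp, hq, add_sub_cancel_right]
  have hl : ∀ u, q (p u) = u := fun u => DFunLike.congr_fun hqp u
  have hr : ∀ u, p (q u) = u := fun u => DFunLike.congr_fun hpq u
  obtain ⟨v, hv⟩ : ∃ v : MulAut (Pi 0 (m + 4)), ∀ u, v u = p u :=
    ⟨{ toFun := p, invFun := q, left_inv := hl, right_inv := hr, map_mul' := map_mul p },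
      fun _ => rfl⟩
  have hpm : ∀ x ∈ std 0 (m + 4), p x ∈ std 0 (m + 4) := by
    refine map_mem p.toMonoidHom fun j => ?_
    show p (loop j) ∈ std 0 (m + 4)
    rw [hp]
    exact loop_mem _
  have hqm : ∀ x ∈ std 0 (m + 4), q x ∈ std 0 (m + 4) := by
    refine map_mem q.toMonoidHom fun j => ?_
    show q (loop j) ∈ std 0 (m + 4)
    rw [hq]
    exact loop_mem _
  refine ⟨v, ?_, fun j => (hv _).trans (hp j), ?_⟩
  · have h1 : (v : Pi 0 (m + 4) → Pi 0 (m + 4)) = p := funext hv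
    rw [h1]
    exact p.continuous_toFun
  · refine le_antisymm ?_ ?_
    · rintro _ ⟨x, hx, rfl⟩
      show v x ∈ std 0 (m + 4)
      rw [hv]
      exact hpm x hx
    · intro x hx
      refine ⟨q x, hqm x hx, ?_⟩
      show v (q x) = x
      rw [hv, hr]

end Pool.Agent.H371.LG.GN
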