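import Pool.Agent.H371.LG2.E4
import Pool.Agent.H371.LG2.P2
import Pool.Agent.H371.LG2.P3
import Pool.Agent.H371.LG2.C1
import Pool.Agent.H371.LG.A2
import Pool.Agent.H371.GT.G1

/-!
In type `(0, n)`, `n ≥ 4`: conjugation by the automorphisms glued from the powers of an exotic
automorphism moves the group `T⁺(π_0)`.
-/

set_option autoImplicit false

namespace Pool.Agent.H371.LG.GN

open Pool.Agent.H371.GT

variable {m : ℕ}

theorem conj_loop_inv {n : ℕ} {φ : MulAut (Pi 0 n)} {i : Fin n}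
    (h : ∃ a, φ (loop i) = a * loop i * a⁻¹) : ∃ a, φ⁻¹ (loop i) = a * loop i * a⁻¹ := by
  obtain ⟨a, ha⟩ := h
  refine ⟨(φ⁻¹ a)⁻¹, ?_⟩
  have h1 : φ⁻¹ (φ (loop i)) = φ⁻¹ (a * loop i * a⁻¹) := by rw [ha]
  rw [MulAut.inv_apply_self, map_mul, map_mul, map_inv] at h1
  generalize φ⁻¹ a = b at h1 ⊢
  generalize φ⁻¹ (loop i) = c at h1 ⊢
  rw [h1]
  group

/-- `φ` extends `σ` -/
def IsExt (p : Pi 0 (m + 4) →ₜ* F2) (σ : MulAut F2) (φ : MulAut (Pi 0 (m + 4))) : Prop :=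
  Continuous φ ∧ (∃ a, φ (loop 0) = a * loop 0 * a⁻¹) ∧ (∃ b, φ (loop 1) = b * loop 1 * b⁻¹) ∧
    (∀ j : Fin (m + 4), 2 ≤ j.val → φ (loop j) = loop j) ∧ ∀ u, p (φ u) = σ (p u)

theorem isExt_one (p : Pi 0 (m + 4) →ₜ* F2) : IsExt p 1 (1 : MulAut (Pi 0 (m + 4))) :=
  ⟨continuous_id, ⟨1, by rw [one_mul, inv_one, mul_one]; rfl⟩,
    ⟨1, by rw [one_mul, inv_one, mul_one]; rfl⟩, fun _ _ => rfl, fun _ => rfl⟩

theorem IsExt.mul {p : Pi 0 (m + 4) →ₜ* F2} {σ τ : MulAut F2} {φ ψ : MulAut (Pi 0 (m + 4))}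
    (h : IsExt p σ φ) (k : IsExt p τ ψ) : IsExt p (σ * τ) (φ * ψ) := by
  obtain ⟨hc, ⟨a, ha⟩, ⟨b, hb⟩, hj, hp⟩ := h
  obtain ⟨kc, ⟨a', ha'⟩, ⟨b', hb'⟩, kj, kp⟩ := k
  refine ⟨hc.comp kc, ⟨φ a' * a, ?_⟩, ⟨φ b' * b, ?_⟩, fun j h2 => ?_, fun u => ?_⟩
  · show φ (ψ (loop 0)) = _
    rw [ha', map_mul, map_mul, map_inv, ha]
    group
  · show φ (ψ (loop 1)) = _
    rw [hb', map_mul, map_mul, map_inv, hb]
    group
  · show φ (ψ (loop j)) = _
    rw [kj j h2, hj j h2]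
  · show p (φ (ψ u)) = σ (τ (p u))
    rw [hp, kp]

theorem IsExt.pow {p : Pi 0 (m + 4) →ₜ* F2} {σ : MulAut F2} {φ : MulAut (Pi 0 (m + 4))}
    (h : IsExt p σ φ) (k : ℕ) : IsExt p (σ ^ k) (φ ^ k) := by
  induction k with
  | zero =>
    rw [pow_zero, pow_zero]
    exact isExt_one p
  | succ k ih =>
    rw [pow_succ, pow_succ]
    exact ih.mul h

theorem IsExt.conj_loop {p : Pi 0 (m + 4) →ₜ* F2} {σ : MulAut F2} {φ : MulAut (Pi 0 (m + 4))}
    (h : IsExt p σ φ) (i : Fin (m + 4)) : ∃ a, φ (loop i) = a * loop i * a⁻¹ := by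
  by_cases h2 : 2 ≤ i.val
  · exact ⟨1, by rw [one_mul, inv_one, mul_one]; exact h.2.2.2.1 i h2⟩
  · by_cases h1 : i.val = 0
    · have : i = 0 := Fin.ext h1
      rw [this]
      exact h.2.1
    · have : i = 1 := Fin.ext (by
        show i.val = 1 % (m + 4)
        rw [Nat.mod_eq_of_lt (by omega)]
        omega)
      rw [this]
      exact h.2.2.1

theorem IsExt.mem_autLac {p : Pi 0 (m + 4) →ₜ* F2} {σ : MulAut F2} {φ : MulAut (Pi 0 (m + 4))}
    (h : IsExt p σ φ) : φ ∈ AutLac 0 (m + 4) := by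
  refine ⟨h.1, 1, 1, fun j => ?_⟩
  obtain ⟨a, ha⟩ := h.conj_loop j
  exact ⟨a, by rw [ha, Equiv.Perm.one_apply, Units.val_one, GT.ppow_one]⟩

/-- the permutation of the loops induced by the square of the rotation -/
def rho (m : ℕ) : Equiv.Perm (Fin (m + 4)) := (Equiv.addRight 1).trans (Equiv.addRight 1)

theorem rho_val {k : Fin (m + 4)} (hk : k.val < 2) : 2 ≤ (rho m k).val := by
  show 2 ≤ ((k + 1 + 1 : Fin (m + 4))).val
  rw [Fin.val_add, Fin.val_add, Fin.val_one]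
  rw [Nat.mod_eq_of_lt (show k.val + 1 < m + 4 by omega), Nat.mod_eq_of_lt (by omega)]
  omega

theorem moved {p : Pi 0 (m + 4) →ₜ* F2} (hp : IsProj p) {r : MulAut (Pi 0 (m + 4))}
    (rc : Continuous r) (hr : ∀ j : Fin (m + 4), r (loop j) = loop (j + 1))
    (rD : (std 0 (m + 4)).map r.toMonoidHom = std 0 (m + 4)) {σ : MulAut F2} (hσ : Exotic σ)
    {φ : MulAut (Pi 0 (m + 4))} (hφ : IsExt p σ φ) :
    r * r ∈ TPlus (std 0 (m + 4)) ∧ φ * (r * r) * φ⁻¹ ∉ TPlus (std 0 (m + 4)) := by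
  obtain ⟨v, hv⟩ : ∃ v, v = r * r := ⟨_, rfl⟩
  have vc : Continuous v := by
    rw [hv]
    exact rc.comp rc
  have hvl : ∀ j, v (loop j) = loop (rho m j) := by
    intro j
    rw [hv]
    show r (r (loop j)) = _
    rw [hr, hr]
    rfl
  have vD : (std 0 (m + 4)).map v.toMonoidHom = std 0 (m + 4) := by
    have : v.toMonoidHom = r.toMonoidHom.comp r.toMonoidHom := by rw [hv]; rfl
    rw [this, ← Subgroup.map_map, rD, rD]
  have hv1 : v ∈ AutLacOne 0 (m + 4) := by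
    refine ⟨vc, rho m, fun j => ⟨1, ?_⟩⟩
    rw [hvl, GT.ppow_one, one_mul, inv_one, mul_one]
  have hvS : v ∈ Stab (std 0 (m + 4)) := by
    refine ⟨⟨vc, 1, rho m, fun j => ⟨1, ?_⟩⟩, vD⟩
    rw [hvl, Units.val_one, GT.ppow_one, one_mul, inv_one, mul_one]
  have hvS' : v⁻¹ ∈ Stab (std 0 (m + 4)) := by
    refine ⟨autLac_inv hvS.1, ?_⟩
    conv_lhs => rw [← vD]
    rw [Subgroup.map_map]
    have : (v⁻¹ : MulAut (Pi 0 (m + 4))).toMonoidHom.comp v.toMonoidHom = MonoidHom.id _ := by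
      ext u
      exact MulAut.inv_apply_self _ v u
    rw [this, Subgroup.map_id]
  have hvC : v ∈ Clos (Stab (std 0 (m + 4))) :=
    ⟨hvS.1, fun N => ⟨v, hvS, fun u => by rw [inv_mul_cancel]; exact N.one_mem⟩⟩
  rw [← hv]
  refine ⟨⟨1, v, hvC, hv1, by rw [map_one, one_mul]⟩, ?_⟩
  rintro ⟨w, s, hs, hs1, he⟩
  have hs' : s * v⁻¹ ∈ Clos (Stab (std 0 (m + 4))) := clos_mul hs hvS'
  have hsv : s * v⁻¹ = MulAut.conj w⁻¹ * (φ * v * φ⁻¹ * v⁻¹) := by
    rw [he, map_inv]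
    group
  have hinv : ∀ k, v⁻¹ (loop (rho m k)) = loop k := by
    intro k
    rw [← hvl, MulAut.inv_apply_self]
  have hL := hφ.conj_loop
  have key : ∀ i, ∃ a, (φ * v * φ⁻¹ * v⁻¹) (loop i) = a * loop i * a⁻¹ := by
    intro i
    obtain ⟨k, rfl⟩ := (rho m).surjective i
    obtain ⟨a, ha⟩ := conj_loop_inv (hL k)
    obtain ⟨b, hb⟩ := hL (rho m k)
    refine ⟨φ (v a) * b, ?_⟩
    show φ (v (φ⁻¹ (v⁻¹ (loop (rho m k))))) = _
    have e1 : v (a * loop k * a⁻¹) = v a * loop (rho m k) * (v a)⁻¹ := by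
      rw [map_mul, map_mul, map_inv, hvl]
    have e2 : φ (v a * loop (rho m k) * (v a)⁻¹) = φ (v a) * φ (loop (rho m k)) * (φ (v a))⁻¹ := by
      rw [map_mul, map_mul, map_inv]
    rw [hinv, ha, e1, e2, hb]
    group
  obtain ⟨h, hh⟩ := clos_inner p hp (s * v⁻¹) hs' (by
    intro i
    obtain ⟨a, ha⟩ := key i
    refine ⟨w⁻¹ * a, ?_⟩
    rw [hsv, MulAut.mul_apply, ha, MulAut.conj_apply]
    group)
  have hθ : ∀ u, p ((v * φ⁻¹ * v⁻¹) u) = p u := by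
    have hφc : Continuous (φ⁻¹ : MulAut (Pi 0 (m + 4))) :=
      Continuous.continuous_symm_of_equiv_compact_to_t2 (f := φ.toEquiv) hφ.1
    have hvc' : Continuous (v⁻¹ : MulAut (Pi 0 (m + 4))) :=
      Continuous.continuous_symm_of_equiv_compact_to_t2 (f := v.toEquiv) vc
    have hcont : Continuous (v * φ⁻¹ * v⁻¹ : MulAut (Pi 0 (m + 4))) := (vc.comp hφc).comp hvc'
    have hE := pi_ext (p.comp ⟨(v * φ⁻¹ * v⁻¹ : MulAut (Pi 0 (m + 4))).toMonoidHom, hcont⟩) p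
      (by
        intro j
        show p (v (φ⁻¹ (v⁻¹ (loop j.castSucc)))) = p (loop j.castSucc)
        have hne : j.castSucc ≠ Fin.last (m + 3) := Fin.castSucc_ne_last j
        generalize j.castSucc = i at hne ⊢
        obtain ⟨k, rfl⟩ := (rho m).surjective i
        rw [hinv]
        by_cases hk : 2 ≤ k.val
        · have e : φ⁻¹ (loop k) = loop k := by
            have h1 := hφ.2.2.2.1 k hk
            conv_lhs => rw [← h1]
            exact MulAut.inv_apply_self _ φ _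
          rw [e, hvl]
        · obtain ⟨a, ha⟩ := conj_loop_inv (hL k)
          have e1 : v (a * loop k * a⁻¹) = v a * loop (rho m k) * (v a)⁻¹ := by
            rw [map_mul, map_mul, map_inv, hvl]
          rw [ha, e1, map_mul, map_mul, map_inv, hp.2.2.1 _ (rho_val (by omega)) hne]
          group)
    intro u
    exact DFunLike.congr_fun hE u
  apply hσ.2.2.2.2
  have hX : ∀ u, σ (p u) = (p w * h) * p u * (p w * h)⁻¹ := by
    intro u
    have e1 : p ((φ * v * φ⁻¹ * v⁻¹) u) = σ (p u) := by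
      have : (φ * v * φ⁻¹ * v⁻¹) u = φ ((v * φ⁻¹ * v⁻¹) u) := rfl
      rw [this, hφ.2.2.2.2, hθ]
    have e2 := hh u
    rw [hsv, MulAut.mul_apply, MulAut.conj_apply, map_mul, map_mul, e1, inv_inv, map_inv] at e2
    have e3 : σ (p u) = p w * ((p w)⁻¹ * σ (p u) * p w) * (p w)⁻¹ := by group
    rw [e3, e2]
    group
  refine ⟨p w * h, ?_⟩
  have hcj : (⟨σ.toMonoidHom, hσ.1⟩ : F2 →ₜ* F2) = G1x.cj (p w * h) := by
    apply hom_ext_XY
    · have := hX (loop 0)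
      rw [hp.1] at this
      exact this
    · have := hX (loop 1)
      rw [hp.2.1] at this
      exact this
  intro u
  exact DFunLike.congr_fun hcj u

/-- there is an element of `Aut_lac` no positive power of which normalizes `T⁺(π_0)` -/
theorem main (m : ℕ) : ∃ φ ∈ AutLac 0 (m + 4), ∀ k : ℕ, 0 < k →
    ∃ ψ ∈ TPlus (std 0 (m + 4)), φ ^ k * ψ * (φ ^ k)⁻¹ ∉ TPlus (std 0 (m + 4)) := by
  obtain ⟨σ, hσ⟩ := exists_exotic_pow
  obtain ⟨p, hp⟩ := exists_proj (m := m)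
  have hσ1 : Exotic σ := by
    have := hσ 1 one_pos
    rwa [pow_one] at this
  obtain ⟨φ, hφ⟩ := exists_ext σ hσ1 p hp
  obtain ⟨r, rc, hr, rD⟩ := exists_rot (m := m)
  have hφ' : IsExt p σ φ := hφ
  refine ⟨φ, hφ'.mem_autLac, fun k hk => ?_⟩
  have := moved hp rc hr rD (hσ k hk) (hφ'.pow k)
  exact ⟨r * r, this.1, this.2⟩

end Pool.Agent.H371.LG.GN
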