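import Pool.Agent.H371.LG.Grp
import Pool.Agent.H371.LG2.Main

/-!
In type `(0, n)`, `n ≥ 4`, the normalizer of `T⁺(π_0)` in `T(π)` has infinite index.
-/

set_option autoImplicit false

namespace Pool.Agent.H371.LG.GN

open Pool.Agent.H371.GT

theorem inn_le {g n : ℕ} (w : Pi g n) : MulAut.conj w ∈ AutLac g n := by
  refine ⟨?_, 1, 1, fun j => ⟨w, ?_⟩⟩
  · exact (continuous_const.mul continuous_id).mul continuous_const
  · rw [Units.val_one, GT.ppow_one]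
    rfl

theorem tplus_le {g n : ℕ} {D : Subgroup (Pi g n)} {ψ : MulAut (Pi g n)} (h : ψ ∈ TPlus D) :
    ψ ∈ AutLac g n := by
  obtain ⟨w, s, hs, -, rfl⟩ := h
  exact (autLac g n).mul_mem (inn_le w) hs.1

/-- conjugation moves the groups `T⁺` as expected -/
theorem conj_tPlus {g n : ℕ} {D : Subgroup (Pi g n)} (φ : autLac g n) {t : T g n}
    (ht : t ∈ tPlus D) :
    (QuotientGroup.mk φ : T g n) * t * (QuotientGroup.mk φ : T g n)⁻¹ ∈
      tPlus (D.map φ.1.toMonoidHom) := by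
  obtain ⟨ψ, rfl⟩ := QuotientGroup.mk_surjective t
  have h := tplus_conj φ.2 ((mem_tPlus ψ).1 ht)
  exact (mem_tPlus (φ * ψ * φ⁻¹)).2 h

/-- an element of `T(π)` no positive power of which normalizes `T⁺(π_0)` -/
theorem main_T (m : ℕ) : ∃ φ : autLac 0 (m + 4), ∀ k : ℕ, 0 < k →
    ∃ t ∈ tPlus (std 0 (m + 4)),
      (QuotientGroup.mk φ : T 0 (m + 4)) ^ k * t * ((QuotientGroup.mk φ : T 0 (m + 4)) ^ k)⁻¹ ∉
        tPlus (std 0 (m + 4)) := by
  obtain ⟨φ, hφ, h⟩ := main m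
  refine ⟨⟨φ, hφ⟩, fun k hk => ?_⟩
  obtain ⟨ψ, hψ, hn⟩ := h k hk
  refine ⟨QuotientGroup.mk ⟨ψ, tplus_le hψ⟩, (mem_tPlus _).2 hψ, fun hc => hn ?_⟩
  have := (mem_tPlus ((⟨φ, hφ⟩ : autLac 0 (m + 4)) ^ k * ⟨ψ, tplus_le hψ⟩ *
    ((⟨φ, hφ⟩ : autLac 0 (m + 4)) ^ k)⁻¹)).1 hc
  exact this

theorem not_normal (m : ℕ) : ¬ (tPlus (std 0 (m + 4))).Normal := by
  intro hN
  obtain ⟨φ, h⟩ := main_T m
  obtain ⟨t, ht, hn⟩ := h 1 one_pos
  exact hn (hN.conj_mem t ht _)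

theorem infinite_index (m : ℕ) :
    (Subgroup.normalizer (tPlus (std 0 (m + 4)) : Set (T 0 (m + 4)))).index = 0 := by
  obtain ⟨φ, h⟩ := main_T m
  by_contra hne
  obtain ⟨k, hk, -, hmem⟩ := Subgroup.exists_pow_mem_of_index_ne_zero hne
    (QuotientGroup.mk φ : T 0 (m + 4))
  obtain ⟨t, ht, hn⟩ := h k hk
  exact hn ((Subgroup.mem_normalizer_iff.1 hmem t).1 ht)

theorem map_map_pow {n : ℕ} (D : Subgroup (Pi 0 n)) (φ ψ : autLac 0 n) :
    (D.map ψ.1.toMonoidHom).map φ.1.toMonoidHom = D.map (φ * ψ).1.toMonoidHom := by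
  rw [Subgroup.map_map]
  rfl

theorem infinitely_many (m : ℕ) : ∃ D : ℕ → Subgroup (Pi 0 (m + 4)), D 0 = std 0 (m + 4) ∧
    (∀ i, IsDisc (D i)) ∧ Function.Injective fun i => tPlus (D i) := by
  obtain ⟨φ, h⟩ := main_T m
  refine ⟨fun i => (std 0 (m + 4)).map (φ ^ i).1.toMonoidHom, ?_, fun i => ⟨_, (φ ^ i).2, rfl⟩, ?_⟩
  · show (std 0 (m + 4)).map (φ ^ 0).1.toMonoidHom = _
    rw [pow_zero]
    exact Subgroup.map_id _
  · have key : ∀ i k : ℕ, 0 < k → tPlus ((std 0 (m + 4)).map (φ ^ i).1.toMonoidHom) ≠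
        tPlus ((std 0 (m + 4)).map (φ ^ (i + k)).1.toMonoidHom) := by
      intro i k hk he
      obtain ⟨t, ht, hn⟩ := h k hk
      have h1 := conj_tPlus (φ ^ (i + k)) ht
      rw [← he] at h1
      have h2 := conj_tPlus (φ ^ i)⁻¹ h1
      rw [map_map_pow, inv_mul_cancel] at h2
      have h3 : (std 0 (m + 4)).map (1 : autLac 0 (m + 4)).1.toMonoidHom = std 0 (m + 4) :=
        Subgroup.map_id _
      rw [h3] at h2
      apply hn
      have h4 : (QuotientGroup.mk (φ ^ i)⁻¹ : T 0 (m + 4)) *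
          ((QuotientGroup.mk (φ ^ (i + k)) : T 0 (m + 4)) * t *
            (QuotientGroup.mk (φ ^ (i + k)) : T 0 (m + 4))⁻¹) *
              (QuotientGroup.mk (φ ^ i)⁻¹ : T 0 (m + 4))⁻¹ =
          (QuotientGroup.mk φ : T 0 (m + 4)) ^ k * t * ((QuotientGroup.mk φ : T 0 (m + 4)) ^ k)⁻¹ := by
        rw [QuotientGroup.mk_inv, QuotientGroup.mk_pow, QuotientGroup.mk_pow, pow_add]
        group
      rw [h4] at h2
      exact h2
    intro i j hij
    by_contra hne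
    rcases lt_or_gt_of_ne hne with hlt | hlt
    · apply key i (j - i) (by omega)
      rw [show i + (j - i) = j by omega]
      exact hij
    · apply key j (i - j) (by omega)
      rw [show j + (i - j) = i by omega]
      exact hij.symm

end Pool.Agent.H371.LG.GN
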