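import Pool.Agent.H371.LG2.Defs

set_option autoImplicit false

namespace Pool.Agent.H371.LG.GN

open Pool.Agent.H371.GT

variable {m : ℕ}

namespace P1x

lemma relator_zero (n : ℕ) : relator 0 n =
    (List.ofFn fun j : Fin n => (FreeGroup.of (Sum.inr j) : FreeGroup (Gen 0 n))).prod := by
  unfold relator
  rw [List.ofFn_zero, List.prod_nil, one_mul]

/-- The product of the loops in the presented group. -/
lemma prod_srf (n : ℕ) :
    (List.ofFn fun j : Fin n => (PresentedGroup.of (Sum.inr j) : Srf 0 n)).prod = 1 := by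
  have h : PresentedGroup.mk ({relator 0 n} : Set (FreeGroup (Gen 0 n))) (relator 0 n) = 1 :=
    PresentedGroup.one_of_mem (Set.mem_singleton _)
  have h2 : PresentedGroup.mk ({relator 0 n} : Set (FreeGroup (Gen 0 n)))
      (List.ofFn fun j : Fin n => (FreeGroup.of (Sum.inr j) : FreeGroup (Gen 0 n))).prod = 1 := by
    rw [← relator_zero n]
    exact h
  rw [map_list_prod, List.map_ofFn] at h2
  exact h2

end P1x

theorem pi_lift {n : ℕ} {Q : Type} [Group Q] [TopologicalSpace Q] [IsTopologicalGroup Q]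
    [CompactSpace Q] [TotallyDisconnectedSpace Q] (f : Fin n → Q) (h : (List.ofFn f).prod = 1) :
    ∃ p : Pi 0 n →ₜ* Q, ∀ i, p (loop i) = f i := by
  have hr : ∀ r ∈ ({relator 0 n} : Set (FreeGroup (Gen 0 n))),
      FreeGroup.lift (Sum.elim (Sum.elim (fun i : Fin 0 => i.elim0) (fun i : Fin 0 => i.elim0)) f :
        Gen 0 n → Q) r = 1 := by
    intro r hr
    rw [Set.mem_singleton_iff.1 hr, P1x.relator_zero, map_list_prod, List.map_ofFn]
    have e : ((FreeGroup.lift (Sum.elim (Sum.elim (fun i : Fin 0 => i.elim0)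
        (fun i : Fin 0 => i.elim0)) f : Gen 0 n → Q)) ∘
        fun j : Fin n => (FreeGroup.of (Sum.inr j) : FreeGroup (Gen 0 n))) = f := by
      funext j
      simp only [Function.comp_apply, FreeGroup.lift_apply_of, Sum.elim_inr]
    rw [e]
    exact h
  obtain ⟨p, hp⟩ := exists_lift (PresentedGroup.toGroup hr)
  refine ⟨p, fun i => ?_⟩
  rw [loop, hp, PresentedGroup.toGroup.of]
  rfl

theorem loop_prod (n : ℕ) : (List.ofFn fun j : Fin n => (loop j : Pi 0 n)).prod = 1 := by
  have h := congrArg (eta (Srf 0 n)) (P1x.prod_srf n)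
  rw [map_list_prod, List.map_ofFn, map_one] at h
  exact h

theorem pi_ext {n : ℕ} {H : Type} [Group H] [TopologicalSpace H] [T2Space H]
    (p q : Pi 0 (n + 1) →ₜ* H) (h : ∀ j : Fin n, p (loop j.castSucc) = q (loop j.castSucc)) :
    p = q := by
  have h3 : p (loop (Fin.last n)) = q (loop (Fin.last n)) := by
    have e0 := loop_prod (n + 1)
    rw [List.ofFn_succ', List.prod_concat] at e0
    have e : (loop (Fin.last n) : Pi 0 (n + 1)) =
        ((List.ofFn fun j : Fin n => (loop j.castSucc : Pi 0 (n + 1))).prod)⁻¹ :=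
      eq_inv_of_mul_eq_one_right e0
    have e2 : p ((List.ofFn fun j : Fin n => (loop j.castSucc : Pi 0 (n + 1))).prod) =
        q ((List.ofFn fun j : Fin n => (loop j.castSucc : Pi 0 (n + 1))).prod) := by
      rw [map_list_prod, map_list_prod, List.map_ofFn, List.map_ofFn]
      congr 2
      funext j
      exact h j
    rw [e, map_inv, map_inv, e2]
  apply hom_ext
  intro g
  have hh : (p.toMonoidHom.comp (eta (Srf 0 (n + 1)))) =
      (q.toMonoidHom.comp (eta (Srf 0 (n + 1)))) := by
    apply PresentedGroup.ext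
    rintro ((i | i) | i)
    · exact i.elim0
    · exact i.elim0
    · refine Fin.lastCases ?_ (fun j => ?_) i
      · exact h3
      · exact h j
  exact DFunLike.congr_fun hh g

theorem exists_proj : ∃ p : Pi 0 (m + 4) →ₜ* F2, IsProj p := by
  obtain ⟨f, hf⟩ : ∃ f : Fin (m + 4) → F2, f = fun j =>
      if j = 0 then X else if j = 1 then Y else if j = Fin.last (m + 3) then Z else 1 :=
    ⟨_, rfl⟩
  have f0 : f 0 = X := by rw [hf]; simp
  have f1 : f 1 = Y := by rw [hf]; simp
  have f2 : ∀ j : Fin (m + 4), 2 ≤ j.val → j ≠ Fin.last (m + 3) → f j = 1 := by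
    intro j hj hj'
    rw [hf]
    have h0 : j ≠ 0 := by
      rintro rfl
      simp at hj
    have h1 : j ≠ 1 := by
      rintro rfl
      simp at hj
    simp only [if_neg h0, if_neg h1, if_neg hj']
  have f3 : f (Fin.last (m + 3)) = Z := by
    rw [hf]
    have h0 : Fin.last (m + 3) ≠ 0 := by
      intro h
      have := congrArg Fin.val h
      simp at this
    have h1 : Fin.last (m + 3) ≠ 1 := by
      intro h
      have := congrArg Fin.val h
      simp at this
    simp only [if_neg h0, if_neg h1, if_true]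
  have hp : (List.ofFn f).prod = 1 := by
    rw [List.ofFn_succ, List.prod_cons, List.ofFn_succ, List.prod_cons, List.ofFn_succ',
      List.prod_concat]
    have e1 : (List.ofFn fun i : Fin (m + 1) => f i.castSucc.succ.succ).prod = 1 := by
      refine List.prod_eq_one fun x hx => ?_
      rw [List.mem_ofFn] at hx
      obtain ⟨i, rfl⟩ := hx
      refine f2 _ ?_ ?_
      · simp
      · intro h
        have h2 := congrArg Fin.val h
        simp at h2
        have := i.2
        omega
    have e2 : f (Fin.last (m + 1)).succ.succ = Z := f3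
    have e3 : f (Fin.succ 0) = Y := f1
    rw [e1, e2, e3, f0, one_mul, ← mul_assoc, Z, mul_inv_cancel]
  obtain ⟨p, hpf⟩ := pi_lift (Q := F2) f hp
  refine ⟨p, ?_, ?_, fun j hj hj' => ?_, ?_⟩
  · rw [hpf, f0]
  · rw [hpf, f1]
  · rw [hpf, f2 j hj hj']
  · rw [hpf, f3]

end Pool.Agent.H371.LG.GN
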