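import Pool.Agent.H371.LG2.Grp

/-!
# Profinite loop groups, their lac automorphisms and the groups `T⁺`

The definitions used in the statement of the results on Grothendieck's normality question.
-/

set_option autoImplicit false

namespace Pool.Agent.H371.LG.Pub

open Pool.Agent.H371.GT

/-- The discrete group `π_{g,n}`, generated by `x_i`, `y_i` (`i < g`) and `l_j` (`j < n`) subject to the
relation `[x_0, y_0] ... [x_{g-1}, y_{g-1}] l_0 ... l_{n-1} = 1`. -/
def Srf (g n : ℕ) : Type := PresentedGroup ({relator g n} : Set (FreeGroup (Gen g n)))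

instance instGroupSrf (g n : ℕ) : Group (Srf g n) := inferInstanceAs (Group (PresentedGroup _))

/-- The profinite loop group of type `(g, n)`: the profinite completion of `π_{g,n}`. -/
def Pi (g n : ℕ) : Type := PC (Srf g n)

instance instGroupPi (g n : ℕ) : Group (Pi g n) := inferInstanceAs (Group (PC (Srf g n)))

instance instTopPi (g n : ℕ) : TopologicalSpace (Pi g n) :=
  inferInstanceAs (TopologicalSpace (PC (Srf g n)))

variable {g n : ℕ}

/-- The element `l_j` of the discrete group. -/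
def l0 (j : Fin n) : Srf g n := PresentedGroup.of (Sum.inr j)

/-- The canonical homomorphism from the discrete group to its profinite completion. -/
def etaPi (g n : ℕ) : Srf g n →* Pi g n := eta (Srf g n)

/-- The element `l_j` of the profinite group. -/
def loop (j : Fin n) : Pi g n := etaPi g n (l0 j)

/-- The standard discretification `π_0`: the image of `π_{g,n}`. -/
def std (g n : ℕ) : Subgroup (Pi g n) := (etaPi g n).range

/-- `φ (l_j)` is conjugate to `l_{τ j} ^ l` for all `j`. -/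
def LacAt (l : Zhat) (τ : Equiv.Perm (Fin n)) (φ : MulAut (Pi g n)) : Prop :=
  ∀ j, ∃ a, φ (loop j) = a * ppow (loop (τ j)) l * a⁻¹

/-- `Aut_lac(π)`: the continuous automorphisms `φ` such that for some unit `l` of the ring of profinite
integers and some permutation `τ` every `φ (l_j)` is conjugate to `l_{τ j} ^ l`. -/
def AutLac (g n : ℕ) : Set (MulAut (Pi g n)) :=
  {φ | Continuous φ ∧ ∃ (l : Zhatˣ) (τ : Equiv.Perm (Fin n)), LacAt (l : Zhat) τ φ}

/-- For some permutation `τ` every `φ (l_j)` is conjugate to `l_{τ j}`; on the elements of `Aut_lac(π)`,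
`n ≥ 1`, this means that the cyclotomic character is `1`. -/
def ChiOne (φ : MulAut (Pi g n)) : Prop :=
  ∃ τ : Equiv.Perm (Fin n), ∀ j, ∃ a, φ (loop j) = a * loop (τ j) * a⁻¹

/-- The stabilizer of the abstract subgroup `D` in `Aut_lac(π)`. -/
def Stab (D : Subgroup (Pi g n)) : Set (MulAut (Pi g n)) :=
  {φ | φ ∈ AutLac g n ∧ D.map φ.toMonoidHom = D}

/-- The automorphisms `φ` and `ψ` agree modulo the open normal subgroup `N`. -/
def Agree (N : OpenNormalSubgroup (Pi g n)) (φ ψ : MulAut (Pi g n)) : Prop :=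
  ∀ u, (φ u)⁻¹ * ψ u ∈ N.toSubgroup

/-- The closure of a set of automorphisms in `Aut_lac(π)`: the elements of `Aut_lac(π)` which agree
modulo each open normal subgroup of `π` with an element of the set. -/
def Clos (S : Set (MulAut (Pi g n))) : Set (MulAut (Pi g n)) :=
  {φ | φ ∈ AutLac g n ∧ ∀ N : OpenNormalSubgroup (Pi g n), ∃ d ∈ S, Agree N d φ}

/-- The preimage in `Aut_lac(π)` of the subgroup `T⁺(D)` of `T(π) = Aut_lac(π) / Inn(π)`: the products of
an inner automorphism and an element with cyclotomic character `1` of the closure of the stabilizer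
of `D`. -/
def TPlus (D : Subgroup (Pi g n)) : Set (MulAut (Pi g n)) :=
  {φ | ∃ (w : Pi g n) (s : MulAut (Pi g n)), s ∈ Clos (Stab D) ∧ ChiOne s ∧
    φ = MulAut.conj w * s}

/-- A discretification: the image of the standard one under an element of `Aut_lac(π)`. -/
def IsDisc (D : Subgroup (Pi g n)) : Prop :=
  ∃ φ ∈ AutLac g n, D = (std g n).map φ.toMonoidHom

theorem autLac_eq : (AutLac g n : Set (MulAut (LG.Pi g n))) = LG.AutLac g n := rfl

theorem chiOne_iff (φ : MulAut (Pi g n)) (hc : Continuous φ) :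
    ChiOne φ ↔ (show MulAut (LG.Pi g n) from φ) ∈ AutLacOne g n := by
  constructor
  · rintro ⟨τ, h⟩
    refine ⟨hc, τ, fun j => ?_⟩
    obtain ⟨a, ha⟩ := h j
    refine ⟨a, ?_⟩
    rw [GT.ppow_one]
    exact ha
  · rintro ⟨-, τ, h⟩
    refine ⟨τ, fun j => ?_⟩
    obtain ⟨a, ha⟩ := h j
    rw [GT.ppow_one] at ha
    exact ⟨a, ha⟩

theorem tPlus_eq (D : Subgroup (Pi g n)) :
    TPlus D = LG.TPlus (show Subgroup (LG.Pi g n) from D) := by
  ext φ
  constructor
  · rintro ⟨w, s, hs, h1, h⟩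
    exact ⟨w, s, hs, (chiOne_iff s hs.1.1).1 h1, h⟩
  · rintro ⟨w, s, hs, h1, h⟩
    exact ⟨w, s, hs, (chiOne_iff s h1.1).2 h1, h⟩

/-- Some element of `Aut_lac(π)` has no positive power normalizing `T⁺(π_0)`. -/
theorem no_power (hn : 4 ≤ n) : ∃ φ ∈ AutLac 0 n, ∀ k : ℕ, 0 < k →
    ∃ ψ ∈ TPlus (std 0 n), φ ^ k * ψ * (φ ^ k)⁻¹ ∉ TPlus (std 0 n) := by
  obtain ⟨m, rfl⟩ : ∃ m, n = m + 4 := ⟨n - 4, by omega⟩
  obtain ⟨φ, hφ, h⟩ := GN.main m
  refine ⟨φ, hφ, fun k hk => ?_⟩
  obtain ⟨ψ, h1, h2⟩ := h k hk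
  rw [tPlus_eq]
  exact ⟨ψ, h1, h2⟩

/-- Infinitely many discretifications with pairwise different groups `T⁺`. -/
theorem infinitely_many (hn : 4 ≤ n) : ∃ D : ℕ → Subgroup (Pi 0 n), D 0 = std 0 n ∧
    (∀ i, IsDisc (D i)) ∧ Function.Injective fun i => TPlus (D i) := by
  obtain ⟨m, rfl⟩ : ∃ m, n = m + 4 := ⟨n - 4, by omega⟩
  obtain ⟨D, h0, h1, h2⟩ := GN.infinitely_many m
  refine ⟨D, h0, h1, fun i j hij => h2 ?_⟩
  have h3 : LG.TPlus (D i) = LG.TPlus (D j) := by
    rw [← tPlus_eq, ← tPlus_eq]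
    exact hij
  ext t
  obtain ⟨φ, rfl⟩ := QuotientGroup.mk_surjective t
  rw [mem_tPlus, mem_tPlus, h3]

end Pool.Agent.H371.LG.Pub
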